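import Pool.Agent.V11109.Rok.Example
import Pool.Agent.V11109.Rok.Model

/-!
# A free action of a compact group with infinite Rokhlin dimension

The compact group `G = ∏ ℤ/2` acts on the product `X` of the spheres of all dimensions, the `n`-th
factor of the group by the antipodal map of the `n`-th sphere. The action is free. If it had Rokhlin
dimension `d`, there would be an odd map from the `(d+1)`-sphere to `ℝ^(d+1)` without zeros, against
the theorem of Borsuk and Ulam.
-/

set_option autoImplicit false

namespace Pool.Agent.Results.MP_cd8fef_an.FreeInfiniteDim

open Pool.Agent.V11109.Rok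
open scoped BoundedContinuousFunction

/-- There are a compact metrizable group `G` and a continuous free action of `G` on a compact
metrizable space `X` such that the induced action of `G` on `C(X)` does not have finite Rokhlin
dimension. (The sequence algebra used in the definition of the Rokhlin dimension exists.) -/
theorem result : ∃ (G : Type) (_ : Group G) (_ : TopologicalSpace G) (_ : IsTopologicalGroup G)
    (_ : CompactSpace G) (X : Type) (_ : TopologicalSpace X) (_ : CompactSpace X)
    (_ : MulAction G X) (_ : ContinuousSMul G X),
    TopologicalSpace.MetrizableSpace G ∧ TopologicalSpace.MetrizableSpace X ∧ Nonempty X ∧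
    (∀ (g : G) (x : X), g • x = x → g = 1) ∧ (∀ d : ℕ, ¬ RokhlinDimLE G X d) ∧
    ∃ (B : Type) (_ : CStarAlgebra B) (q : (ℕ →ᵇ C(X, ℂ)) →⋆ₐ[ℂ] B) (act : G → B → B),
      IsSequenceAlgebra q act :=
  ⟨GG, inferInstance, inferInstance, inferInstance, inferInstance, XX, inferInstance,
    inferInstance, inferInstance, inferInstance, inferInstance, inferInstance, ⟨base⟩, free,
    not_rokhlinDimLE, haveI : Nonempty XX := ⟨base⟩; exists_sequenceAlgebra GG XX⟩

end Pool.Agent.Results.MP_cd8fef_an.FreeInfiniteDim
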